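import Pool.Agent.H.MP_2232d5_co.Main

namespace Pool.Agent.Results.MP_2232d5_co.Full
open Pool.Agent.H.MP_2232d5_co

theorem result : (∃ x, IsRuler x) ∧ ∀ x, IsRuler x → ∀ y : ℕ → ℕ,
    ((SqFree y ∧ ∀ n : ℕ, 1 ≤ n → nsc y n ≤ 2 * n) ↔
      ∃ σ : ℕ → ℕ, Function.Injective σ ∧ y = σ ∘ x) ∧
    ((SqFree y ∧ ∀ n : ℕ, 1 ≤ n → nsc y n ≤ 2 * n) →
      ((∃ σ : ℕ → ℕ, Function.Bijective σ ∧ y = σ ∘ x) ↔ Function.Surjective y)) := by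
  refine ⟨⟨nu, nu_ruler⟩, fun x hx y => ?_⟩
  rw [ruler_eq hx]
  refine ⟨main y, fun h => ⟨?_, fun hy => ?_⟩⟩
  · rintro ⟨σ, hσ, rfl⟩
    exact hσ.2.comp fun k => ⟨2 ^ k - 1, nu_pow k⟩
  · obtain ⟨σ, hσ, rfl⟩ := (main y).1 h
    exact ⟨σ, ⟨hσ, Function.Surjective.of_comp hy⟩, rfl⟩

end Pool.Agent.Results.MP_2232d5_co.Full
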